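import Pool.Agent.Helper10.Qc.Stmts

set_option autoImplicit false

/-! Module CHK (qc_mods). -/

namespace Pool.Agent.Helper10.Qc

open Pool.Agent.Helper19.Qh Pool.Agent.Helper19.Qc

theorem chk_mid (l h : ℕ) (hl : l ≤ h) : l ≤ mid l h ∧ mid l h ≤ h := by
  have e : mid l h = (l + h) / 2 := rfl
  rw [e]
  omega

theorem chk_decr : ∀ W : List ℕ, decr W = true → W.Pairwise (· > ·) := by
  intro W
  induction W with
  | nil => intro _; exact List.Pairwise.nil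
  | cons c l ih =>
    intro h
    cases l with
    | nil => exact List.pairwise_singleton _ _
    | cons d l' =>
      have h1 : (cond (Nat.blt d c) (decr (d :: l')) false) = true := h
      cases hb : Nat.blt d c with
      | false =>
        rw [hb] at h1
        exact absurd h1 (by simp)
      | true =>
        rw [hb] at h1
        have h2 : decr (d :: l') = true := h1
        have h3 := ih h2
        have h4 : d < c := by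
          have : Nat.ble (d + 1) c = true := hb
          exact Nat.le_of_ble_eq_true this
        rw [List.pairwise_cons]
        refine ⟨?_, h3⟩
        intro a ha
        rcases List.mem_cons.1 ha with rfl | ha'
        · exact h4
        · exact lt_trans ((List.pairwise_cons.1 h3).1 a ha') h4

theorem chk_allOK (z0 z1 z2 z3 : ℕ) : ∀ W : List ℕ, allOK z0 z1 z2 z3 W = true →
    ∀ c ∈ W, c < 34359738368 ∧ mkP z0 z1 z2 z3 c ≠ 0 := by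
  intro W
  induction W with
  | nil => intro _ c hc; exact absurd hc (by simp)
  | cons d l ih =>
    intro h
    have h1 : (cond (Nat.blt d 34359738368)
      (cond (Nat.beq (mkP z0 z1 z2 z3 d) 0) false (allOK z0 z1 z2 z3 l)) false) = true := h
    cases hb : Nat.blt d 34359738368 with
    | false =>
      rw [hb] at h1
      exact absurd h1 (by simp)
    | true =>
      rw [hb] at h1
      have h2 : (cond (Nat.beq (mkP z0 z1 z2 z3 d) 0) false (allOK z0 z1 z2 z3 l)) = true := h1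
      cases hc : Nat.beq (mkP z0 z1 z2 z3 d) 0 with
      | true =>
        rw [hc] at h2
        exact absurd h2 (by simp)
      | false =>
        rw [hc] at h2
        have h3 : allOK z0 z1 z2 z3 l = true := h2
        have h4 : d < 34359738368 := by
          have : Nat.ble (d + 1) 34359738368 = true := hb
          exact Nat.le_of_ble_eq_true this
        have h5 : mkP z0 z1 z2 z3 d ≠ 0 := Nat.ne_of_beq_eq_false hc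
        intro c hc'
        rcases List.mem_cons.1 hc' with rfl | hc''
        · exact ⟨h4, h5⟩
        · exact ih h3 c hc''

theorem chk_main (h1 : ST_OUT) (h2 : ST_LEAF) (z0 z1 z2 z3 : ℕ) (W : List ℕ)
    (a0 : z0 ≤ 15) (a1 : z1 ≤ 15) (a2 : z2 ≤ 15) (a3 : z3 ≤ 15)
    (b0 : 1 ≤ z0) (b1 : 1 ≤ z1) (b2 : 1 ≤ z2) (b3 : 1 ≤ z3)
    (hd : decr W = true) (ha : allOK z0 z1 z2 z3 W = true) (t : Tr) :
    ∀ l0 g0 l1 g1 l2 g2 l3 g3 l4 g4 l5 g5 l6 g6 l7 g7 : ℕ,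
      l0 ≤ g0 → l1 ≤ g1 → l2 ≤ g2 → l3 ≤ g3 → l4 ≤ g4 → l5 ≤ g5 → l6 ≤ g6 → l7 ≤ g7 →
      chk z0 z1 z2 z3 (mkT z0 z1 z2 z3 W) W.length t l0 g0 l1 g1 l2 g2 l3 g3 l4 g4 l5 g5 l6 g6 l7 g7 = true →
      ∀ e u : Fin 4 → ℝ, InL l0 g0 l1 g1 l2 g2 l3 g3 l4 g4 l5 g5 l6 g6 l7 g7 e u →
        ConcL z0 z1 z2 z3 W e u := by
  induction t with
  | o =>
    intro l0 g0 l1 g1 l2 g2 l3 g3 l4 g4 l5 g5 l6 g6 l7 g7 _ _ _ _ _ _ _ _ hc e u hI hD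
    exact absurd hD (h1 z0 z1 z2 z3 l0 g0 l1 g1 l2 g2 l3 g3 hc e hI.1 hI.2.1 hI.2.2.1 hI.2.2.2.1)
  | c ji na ca nb cb =>
    intro l0 g0 l1 g1 l2 g2 l3 g3 l4 g4 l5 g5 l6 g6 l7 g7 c0 c1 c2 c3 c4 c5 c6 c7 hc e u hI
    exact h2 z0 z1 z2 z3 W a0 a1 a2 a3 b0 b1 b2 b3 hd ha ji na ca nb cb l0 g0 l1 g1 l2 g2 l3 g3 l4 g4 l5 g5 l6 g6 l7 g7
      c0 c1 c2 c3 c4 c5 c6 c7 hc e u hI
  | s k l r ihl ihr =>
    intro l0 g0 l1 g1 l2 g2 l3 g3 l4 g4 l5 g5 l6 g6 l7 g7 c0 c1 c2 c3 c4 c5 c6 c7 hc e u hI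
    obtain ⟨i0, i1, i2, i3, i4, i5, i6, i7⟩ := hI
    rcases k with _ | _ | _ | _ | _ | _ | _ | k
    · have hs : (chk z0 z1 z2 z3 (mkT z0 z1 z2 z3 W) W.length l l0 (mid l0 g0) l1 g1 l2 g2 l3 g3 l4 g4 l5 g5 l6 g6 l7 g7 &&
          chk z0 z1 z2 z3 (mkT z0 z1 z2 z3 W) W.length r (mid l0 g0) g0 l1 g1 l2 g2 l3 g3 l4 g4 l5 g5 l6 g6 l7 g7) = true := hc
      rw [Bool.and_eq_true] at hs
      have hm := chk_mid l0 g0 c0
      rcases le_total (e 0) ((mid l0 g0 : ℕ) : ℝ) with hx | hx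
      · exact ihl l0 (mid l0 g0) l1 g1 l2 g2 l3 g3 l4 g4 l5 g5 l6 g6 l7 g7 hm.1 c1 c2 c3 c4 c5 c6 c7 hs.1 e u
          ⟨⟨i0.1, hx⟩, i1, i2, i3, i4, i5, i6, i7⟩
      · exact ihr (mid l0 g0) g0 l1 g1 l2 g2 l3 g3 l4 g4 l5 g5 l6 g6 l7 g7 hm.2 c1 c2 c3 c4 c5 c6 c7 hs.2 e u
          ⟨⟨hx, i0.2⟩, i1, i2, i3, i4, i5, i6, i7⟩
    · have hs : (chk z0 z1 z2 z3 (mkT z0 z1 z2 z3 W) W.length l l0 g0 l1 (mid l1 g1) l2 g2 l3 g3 l4 g4 l5 g5 l6 g6 l7 g7 &&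
          chk z0 z1 z2 z3 (mkT z0 z1 z2 z3 W) W.length r l0 g0 (mid l1 g1) g1 l2 g2 l3 g3 l4 g4 l5 g5 l6 g6 l7 g7) = true := hc
      rw [Bool.and_eq_true] at hs
      have hm := chk_mid l1 g1 c1
      rcases le_total (e 1) ((mid l1 g1 : ℕ) : ℝ) with hx | hx
      · exact ihl l0 g0 l1 (mid l1 g1) l2 g2 l3 g3 l4 g4 l5 g5 l6 g6 l7 g7 c0 hm.1 c2 c3 c4 c5 c6 c7 hs.1 e u
          ⟨i0, ⟨i1.1, hx⟩, i2, i3, i4, i5, i6, i7⟩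
      · exact ihr l0 g0 (mid l1 g1) g1 l2 g2 l3 g3 l4 g4 l5 g5 l6 g6 l7 g7 c0 hm.2 c2 c3 c4 c5 c6 c7 hs.2 e u
          ⟨i0, ⟨hx, i1.2⟩, i2, i3, i4, i5, i6, i7⟩
    · have hs : (chk z0 z1 z2 z3 (mkT z0 z1 z2 z3 W) W.length l l0 g0 l1 g1 l2 (mid l2 g2) l3 g3 l4 g4 l5 g5 l6 g6 l7 g7 &&
          chk z0 z1 z2 z3 (mkT z0 z1 z2 z3 W) W.length r l0 g0 l1 g1 (mid l2 g2) g2 l3 g3 l4 g4 l5 g5 l6 g6 l7 g7) = true := hc
      rw [Bool.and_eq_true] at hs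
      have hm := chk_mid l2 g2 c2
      rcases le_total (e 2) ((mid l2 g2 : ℕ) : ℝ) with hx | hx
      · exact ihl l0 g0 l1 g1 l2 (mid l2 g2) l3 g3 l4 g4 l5 g5 l6 g6 l7 g7 c0 c1 hm.1 c3 c4 c5 c6 c7 hs.1 e u
          ⟨i0, i1, ⟨i2.1, hx⟩, i3, i4, i5, i6, i7⟩
      · exact ihr l0 g0 l1 g1 (mid l2 g2) g2 l3 g3 l4 g4 l5 g5 l6 g6 l7 g7 c0 c1 hm.2 c3 c4 c5 c6 c7 hs.2 e u
          ⟨i0, i1, ⟨hx, i2.2⟩, i3, i4, i5, i6, i7⟩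
    · have hs : (chk z0 z1 z2 z3 (mkT z0 z1 z2 z3 W) W.length l l0 g0 l1 g1 l2 g2 l3 (mid l3 g3) l4 g4 l5 g5 l6 g6 l7 g7 &&
          chk z0 z1 z2 z3 (mkT z0 z1 z2 z3 W) W.length r l0 g0 l1 g1 l2 g2 (mid l3 g3) g3 l4 g4 l5 g5 l6 g6 l7 g7) = true := hc
      rw [Bool.and_eq_true] at hs
      have hm := chk_mid l3 g3 c3
      rcases le_total (e 3) ((mid l3 g3 : ℕ) : ℝ) with hx | hx
      · exact ihl l0 g0 l1 g1 l2 g2 l3 (mid l3 g3) l4 g4 l5 g5 l6 g6 l7 g7 c0 c1 c2 hm.1 c4 c5 c6 c7 hs.1 e u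
          ⟨i0, i1, i2, ⟨i3.1, hx⟩, i4, i5, i6, i7⟩
      · exact ihr l0 g0 l1 g1 l2 g2 (mid l3 g3) g3 l4 g4 l5 g5 l6 g6 l7 g7 c0 c1 c2 hm.2 c4 c5 c6 c7 hs.2 e u
          ⟨i0, i1, i2, ⟨hx, i3.2⟩, i4, i5, i6, i7⟩
    · have hs : (chk z0 z1 z2 z3 (mkT z0 z1 z2 z3 W) W.length l l0 g0 l1 g1 l2 g2 l3 g3 l4 (mid l4 g4) l5 g5 l6 g6 l7 g7 &&
          chk z0 z1 z2 z3 (mkT z0 z1 z2 z3 W) W.length r l0 g0 l1 g1 l2 g2 l3 g3 (mid l4 g4) g4 l5 g5 l6 g6 l7 g7) = true := hc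
      rw [Bool.and_eq_true] at hs
      have hm := chk_mid l4 g4 c4
      rcases le_total (u 0) ((mid l4 g4 : ℕ) : ℝ) with hx | hx
      · exact ihl l0 g0 l1 g1 l2 g2 l3 g3 l4 (mid l4 g4) l5 g5 l6 g6 l7 g7 c0 c1 c2 c3 hm.1 c5 c6 c7 hs.1 e u
          ⟨i0, i1, i2, i3, ⟨i4.1, hx⟩, i5, i6, i7⟩
      · exact ihr l0 g0 l1 g1 l2 g2 l3 g3 (mid l4 g4) g4 l5 g5 l6 g6 l7 g7 c0 c1 c2 c3 hm.2 c5 c6 c7 hs.2 e u
          ⟨i0, i1, i2, i3, ⟨hx, i4.2⟩, i5, i6, i7⟩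
    · have hs : (chk z0 z1 z2 z3 (mkT z0 z1 z2 z3 W) W.length l l0 g0 l1 g1 l2 g2 l3 g3 l4 g4 l5 (mid l5 g5) l6 g6 l7 g7 &&
          chk z0 z1 z2 z3 (mkT z0 z1 z2 z3 W) W.length r l0 g0 l1 g1 l2 g2 l3 g3 l4 g4 (mid l5 g5) g5 l6 g6 l7 g7) = true := hc
      rw [Bool.and_eq_true] at hs
      have hm := chk_mid l5 g5 c5
      rcases le_total (u 1) ((mid l5 g5 : ℕ) : ℝ) with hx | hx
      · exact ihl l0 g0 l1 g1 l2 g2 l3 g3 l4 g4 l5 (mid l5 g5) l6 g6 l7 g7 c0 c1 c2 c3 c4 hm.1 c6 c7 hs.1 e u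
          ⟨i0, i1, i2, i3, i4, ⟨i5.1, hx⟩, i6, i7⟩
      · exact ihr l0 g0 l1 g1 l2 g2 l3 g3 l4 g4 (mid l5 g5) g5 l6 g6 l7 g7 c0 c1 c2 c3 c4 hm.2 c6 c7 hs.2 e u
          ⟨i0, i1, i2, i3, i4, ⟨hx, i5.2⟩, i6, i7⟩
    · have hs : (chk z0 z1 z2 z3 (mkT z0 z1 z2 z3 W) W.length l l0 g0 l1 g1 l2 g2 l3 g3 l4 g4 l5 g5 l6 (mid l6 g6) l7 g7 &&
          chk z0 z1 z2 z3 (mkT z0 z1 z2 z3 W) W.length r l0 g0 l1 g1 l2 g2 l3 g3 l4 g4 l5 g5 (mid l6 g6) g6 l7 g7) = true := hc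
      rw [Bool.and_eq_true] at hs
      have hm := chk_mid l6 g6 c6
      rcases le_total (u 2) ((mid l6 g6 : ℕ) : ℝ) with hx | hx
      · exact ihl l0 g0 l1 g1 l2 g2 l3 g3 l4 g4 l5 g5 l6 (mid l6 g6) l7 g7 c0 c1 c2 c3 c4 c5 hm.1 c7 hs.1 e u
          ⟨i0, i1, i2, i3, i4, i5, ⟨i6.1, hx⟩, i7⟩
      · exact ihr l0 g0 l1 g1 l2 g2 l3 g3 l4 g4 l5 g5 (mid l6 g6) g6 l7 g7 c0 c1 c2 c3 c4 c5 hm.2 c7 hs.2 e u
          ⟨i0, i1, i2, i3, i4, i5, ⟨hx, i6.2⟩, i7⟩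
    · have hs : (chk z0 z1 z2 z3 (mkT z0 z1 z2 z3 W) W.length l l0 g0 l1 g1 l2 g2 l3 g3 l4 g4 l5 g5 l6 g6 l7 (mid l7 g7) &&
          chk z0 z1 z2 z3 (mkT z0 z1 z2 z3 W) W.length r l0 g0 l1 g1 l2 g2 l3 g3 l4 g4 l5 g5 l6 g6 (mid l7 g7) g7) = true := hc
      rw [Bool.and_eq_true] at hs
      have hm := chk_mid l7 g7 c7
      rcases le_total (u 3) ((mid l7 g7 : ℕ) : ℝ) with hx | hx
      · exact ihl l0 g0 l1 g1 l2 g2 l3 g3 l4 g4 l5 g5 l6 g6 l7 (mid l7 g7) c0 c1 c2 c3 c4 c5 c6 hm.1 hs.1 e u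
          ⟨i0, i1, i2, i3, i4, i5, i6, ⟨i7.1, hx⟩⟩
      · exact ihr l0 g0 l1 g1 l2 g2 l3 g3 l4 g4 l5 g5 l6 g6 (mid l7 g7) g7 c0 c1 c2 c3 c4 c5 c6 hm.2 hs.2 e u
          ⟨i0, i1, i2, i3, i4, i5, i6, ⟨hx, i7.2⟩⟩

theorem st_CHK (h1 : ST_OUT) (h2 : ST_LEAF) (h3 : ST_MKP) : ST_CHK := by
  intro z0 z1 z2 z3 W t a0 a1 a2 a3 b0 b1 b2 b3 hc
  have hc1 : (cond (decr W) (cond (allOK z0 z1 z2 z3 W)
    (chk z0 z1 z2 z3 (mkT z0 z1 z2 z3 W) W.length t 0 128 0 128 0 128 0 128 0 708 0 1024 0 1024 0 1024)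
    false) false) = true := hc
  cases hd : decr W with
  | false =>
    rw [hd] at hc1
    exact absurd hc1 (by simp)
  | true =>
    rw [hd] at hc1
    have hc2 : (cond (allOK z0 z1 z2 z3 W)
      (chk z0 z1 z2 z3 (mkT z0 z1 z2 z3 W) W.length t 0 128 0 128 0 128 0 128 0 708 0 1024 0 1024 0 1024)
      false) = true := hc1
    cases ha : allOK z0 z1 z2 z3 W with
    | false =>
      rw [ha] at hc2
      exact absurd hc2 (by simp)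
    | true =>
      rw [ha] at hc2
      have hc3 : chk z0 z1 z2 z3 (mkT z0 z1 z2 z3 W) W.length t
        0 128 0 128 0 128 0 128 0 708 0 1024 0 1024 0 1024 = true := hc2
      refine ⟨?_, ?_, ?_⟩
      · exact (chk_decr W hd).imp (fun h => ne_of_gt h)
      · intro c hcW
        have := chk_allOK z0 z1 z2 z3 W ha c hcW
        exact (h3 z0 z1 z2 z3 c a0 a1 a2 a3 b0 b1 b2 b3 this.2 this.1).1
      · intro e u hI
        exact chk_main h1 h2 z0 z1 z2 z3 W a0 a1 a2 a3 b0 b1 b2 b3 hd ha t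
          0 128 0 128 0 128 0 128 0 708 0 1024 0 1024 0 1024
          (by norm_num) (by norm_num) (by norm_num) (by norm_num) (by norm_num) (by norm_num)
          (by norm_num) (by norm_num) hc3 e u hI

end Pool.Agent.Helper10.Qc
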